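import Mathlib
import Pool.Agent.R362.MainB

/-!
# Artin L-functions at zeros of small order of one Hecke L-function

`Pool.Agent.H541R3.ART.Irr G` is the set of irreducible complex characters of the finite group `G`.

`Pool.Agent.H541R3.ART.ArtinData G s₀` is a family of functions with the formal properties of the
Artin L-functions of a Galois extension `E/K` with group `G` near a point `s₀ ≠ 1`: functions
`L χ` for the irreducible characters `χ` of `G` and `Lin H ψ` for the linear characters `ψ` of the
subgroups `H`, such that `L χ` is meromorphic and not identically zero near `s₀` (Brauer), `Lin H ψ`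
has no pole at `s₀` (Artin reciprocity and Hecke), and `Lin H ψ` is the product of the
`L χ ^ ⟨χ|_H, ψ⟩` (induction). So `Lin H ψ` stands for the Hecke L-function of `ψ` over the fixed
field of `H`, and `Lin H 1` for the Dedekind zeta function of the fixed field of `H`.

`Pool.Agent.Y788.V.LTData A` are functions with the formal properties of the Artin L-functions of
the irreducible characters of degree two with solvable image of the subgroups of `G`; they have no
pole at `s₀` by the theorem of Langlands and Tunnell.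

`Pool.Agent.R362.stab N μ` is the stabilizer `T` in `G` of the linear character `μ` of the normal
subgroup `N`. A character `χ` of `G` lies over `μ` if `∑ n ∈ N, χ n (μ n)⁻¹ ≠ 0`.

`Pool.Agent.R362.Section N μ X`: there is a subgroup `H` with `N ≤ H ≤ T` and a surjective
homomorphism `f : H → X` whose restriction to `N` has the same kernel as `μ`.

`Pool.Agent.W446.AS.Frame X F D`: the centre `Z` of `X` is cyclic and contains all abelian normal
subgroups of `X`, and `F` is a normal subgroup of `X` containing `Z` such that `F / Z` is abelian of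
order `D ^ 2 > 1` and the centraliser of `F` in `X` is `Z`.

`Pool.Agent.R362.Small lt r t w` is the following numerical condition: `r ≤ 1`; or `r ≤ 2 P - 2` and
all prime divisors of `t` are at least `P ≥ 3`; or `r ≤ 12` and `t` is prime to `6`; or `r ≤ 10`,
`t` is odd, not (`75 ∣ t` and `375 ∣ w`), not (`405 ∣ t` and `1215 ∣ w`); or `lt` holds, `r ≤ 6`,
`r ≤ 2` if `36 ∣ t` and `108 ∣ w`, `r ≤ 3` if `80 ∣ t` and `160 ∣ w`, `r ≤ 4` if `75 ∣ t` and
`375 ∣ w`.
-/

set_option autoImplicit false

open Pool.Agent.H541R3.ART Pool.Agent.W446.AS Pool.Agent.Y788.V Pool.Agent.R362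

/-- Let `G` be the Galois group of `E/K`. Let `N` be a normal subgroup of `G`, `μ` a linear
character of `N`, `r` the order of the Hecke L-function of `μ` at `s₀`, `T` the stabilizer of `μ`,
and `χ` an irreducible character of `G` over `μ`.

(1) If `r ≤ 1`, then `L χ` has no pole at `s₀`. More precisely `L χ` has neither a zero nor a pole
at `s₀`, or `r = 1`, `L χ` has a simple zero at `s₀` and `χ 1 = [G : T]`.

(2) Suppose that `T / N` is solvable. If `L χ` has a pole at `s₀`, then there are a section `X` as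
above and a frame `F` of `X` of degree `D` such that `2 D ≤ r`, or `D ≤ r` and `X / F` is cyclic;
and `D ≠ 2` by the theorem of Langlands and Tunnell. There is no pole at `s₀` if `Small` holds for
`r`, `t = |T / N|` and `w = |T / N| |N / ker μ|`; for instance, by the theorem of Langlands and
Tunnell, if `r ≤ 2`.

(3) Let `S` be a solvable normal subgroup of `G` and let `e` be the order at `s₀` of the quotient
of the zeta functions of `E` and of the fixed field of `S`. Every irreducible character `χ` of `G`
which is nontrivial on `S` lies over a linear character `μ ≠ 1` of a normal subgroup `N ≤ S` of `G`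
such that `[G : T] r ≤ e`.

(4) If `G` is solvable and `e` is the order of `ζ_E / ζ_K` at `s₀`, no `L χ` has a pole at `s₀` if
`Small` holds for `e` and `t = w = |G|`. -/
theorem Pool.Agent.Results.MP_d2121a_nt.HeckeOrder.result
    (G : Type) [Group G] [Finite G] (s₀ : ℂ) (A : ArtinData G s₀) :
    (∀ (N : Subgroup G) [N.Normal] (μ : N →* ℂˣ) (r : ℕ),
      meromorphicOrderAt (A.Lin N μ) s₀ = (r : WithTop ℤ) →
      ∀ χ ∈ Irr G, ∑ᶠ n : N, χ n * (((μ n)⁻¹ : ℂˣ) : ℂ) ≠ 0 →
      (r ≤ 1 → meromorphicOrderAt (A.L χ) s₀ = 0 ∨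
        (r = 1 ∧ meromorphicOrderAt (A.L χ) s₀ = 1 ∧ χ 1 = (stab N μ).index)) ∧
      (Group.IsSolvable (stab N μ ⧸ N.subgroupOf (stab N μ)) →
        (meromorphicOrderAt (A.L χ) s₀ < 0 →
          ∃ (X : Type) (_ : Group X) (F : Subgroup X) (D : ℕ), Section N μ X ∧ Frame X F D ∧
            (Nonempty (LTData A) → D ≠ 2) ∧
            (2 * D ≤ r ∨ (D ≤ r ∧ ∃ g : X, F ⊔ Subgroup.zpowers g = ⊤))) ∧
        (Small (Nonempty (LTData A)) r (N.relIndex (stab N μ))
            (N.relIndex (stab N μ) * Nat.card μ.range) →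
          0 ≤ meromorphicOrderAt (A.L χ) s₀))) ∧
    (∀ (S : Subgroup G) [S.Normal] [Group.IsSolvable S] (z e : ℕ),
      meromorphicOrderAt (A.Lin S 1) s₀ = (z : WithTop ℤ) →
      meromorphicOrderAt (A.Lin ⊥ 1) s₀ = ((z + e : ℕ) : WithTop ℤ) →
      ∀ χ ∈ Irr G, (∃ x ∈ S, χ x ≠ χ 1) →
      ∃ (N : Subgroup G) (_ : N.Normal) (μ : N →* ℂˣ) (r : ℕ), N ≤ S ∧ μ ≠ 1 ∧
        (∑ᶠ n : N, χ n * (((μ n)⁻¹ : ℂˣ) : ℂ) ≠ 0) ∧
        meromorphicOrderAt (A.Lin N μ) s₀ = (r : WithTop ℤ) ∧ (stab N μ).index * r ≤ e) ∧
    (Group.IsSolvable G → ∀ z e : ℕ,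
      meromorphicOrderAt (A.Lin ⊤ 1) s₀ = (z : WithTop ℤ) →
      meromorphicOrderAt (A.Lin ⊥ 1) s₀ = ((z + e : ℕ) : WithTop ℤ) →
      Small (Nonempty (LTData A)) e (Nat.card G) (Nat.card G) →
      ∀ χ ∈ Irr G, 0 ≤ meromorphicOrderAt (A.L χ) s₀) :=
  ⟨fun N _ μ _ hr _ hχ hχμ => ⟨fun hr1 => art_one A N μ hr hr1 hχ hχμ,
      fun hsol => art_solv A N μ hr hsol hχ hχμ⟩,
    fun S _ _ _ _ hz he _ hχ hS => art_rel A S hz he hχ hS,
    fun _ _ _ hz he hsm _ hχ => art_rel_solv A hz he hsm hχ⟩
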