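import Mathlib
import Pool.Agent.R362.NearGen2
import Pool.Agent.R362.NearArt
import Pool.Agent.R362.MainB

/-!
# Artin's holomorphy conjecture near the line `Re s = 1`

`Pool.Agent.H541R3.ART.Irr G` is the set of irreducible complex characters of the finite group `G`.

`Pool.Agent.H541R3.ART.ArtinData G s₀` is a family of functions with the formal properties of the
Artin L-functions of a Galois extension `E/K` with group `G` near a point `s₀ ≠ 1`: functions
`L χ` for the irreducible characters `χ` of `G` and `Lin H ψ` for the linear characters `ψ` of the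
subgroups `H`, such that `L χ` is meromorphic and not identically zero near `s₀` (Brauer), `Lin H ψ`
has no pole at `s₀` (Artin reciprocity and Hecke), and `Lin H ψ` is the product of the
`L χ ^ ⟨χ|_H, ψ⟩` (induction). So `Lin N μ` stands for the L-function of `μ` as a Hecke character of
the field `E^N` fixed by `N`, and `Lin N 1` for the Dedekind zeta function of `E^N`.

`Pool.Agent.Y788.V.LTData A` are functions with the formal properties of the Artin L-functions of
the irreducible characters of degree two with solvable image of the subgroups of `G`; they have no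
pole at `s₀` by the theorem of Langlands and Tunnell.

`Pool.Agent.W446.AS.Frame X F D`: the centre `Z` of `X` is cyclic and contains all abelian normal
subgroups of `X`, and `F` is a normal subgroup of `X` containing `Z` such that `F / Z` is abelian of
order `D ^ 2 > 1` and the centraliser of `F` in `X` is `Z`.

A character `χ` of `G` lies over the linear character `μ` of the normal subgroup `N` if
`∑ n ∈ N, χ n (μ n)⁻¹ ≠ 0`; the stabilizer of `μ` in `G` is `T`.

`Pool.Agent.R362.HL.IsRay 𝔣 e ψ`: `ψ` is a primitive ray class character of the number field `M` of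
conductor `𝔣` and signature `e` at the real places; `Pool.Agent.R362.HL.rayCond 𝔣 = |d_M| N𝔣` is the
conductor of its L-function. The continuation of this L-function exists by Hecke's theorem
(`Pool.Agent.R362.Near.exists_hecke`).
-/

set_option autoImplicit false

namespace Pool.Agent.Results.MP_d2121a_nt.NearLine

open NumberField
open Pool.Agent.H541R3.ART Pool.Agent.W446.AS Pool.Agent.Y788.V Pool.Agent.R362
open Pool.Agent.R362.HL (IsRay rayCond)
open Pool.Agent.R362.Near (hecke_order zeta_order real_small)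

/-- The stabilizer `T` of the linear character `μ` of the normal subgroup `N`. -/
def stabilizer {G : Type} [Group G] (N : Subgroup G) [N.Normal] (μ : N →* ℂˣ) : Subgroup G where
  carrier := {g | ∀ a : N, μ (MulAut.conjNormal g a) = μ a}
  mul_mem' := (stab N μ).mul_mem'
  one_mem' := (stab N μ).one_mem'
  inv_mem' := (stab N μ).inv_mem'

/-- `X` is a section of `T`: a quotient of a group `H` with `N ≤ H ≤ T`, such that the kernel of
`H → X` meets `N` in the kernel of `μ`. -/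
def IsSection {G : Type} [Group G] (N : Subgroup G) [N.Normal] (μ : N →* ℂˣ) (X : Type) [Group X] :
    Prop :=
  ∃ (H : Subgroup G) (f : H →* X), N ≤ H ∧ H ≤ stabilizer N μ ∧ Function.Surjective f ∧
    ∀ (h : H) (n : N), (h : G) = n → (f h = 1 ↔ μ n = 1)

/-- The conclusions on the irreducible characters over `μ`, if the order of the Hecke L-function of
`μ` at `s₀` is at most `B`. -/
def Conclusion {G : Type} [Group G] [Finite G] {s₀ : ℂ} (A : ArtinData G s₀) (N : Subgroup G)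
    [N.Normal] (μ : N →* ℂˣ) (B : ℝ) : Prop :=
  ∀ χ ∈ Irr G, ∑ᶠ n : N, χ n * (((μ n)⁻¹ : ℂˣ) : ℂ) ≠ 0 →
    (B < 2 → meromorphicOrderAt (A.L χ) s₀ = 0 ∨
      (meromorphicOrderAt (A.L χ) s₀ = 1 ∧ χ 1 = (stabilizer N μ).index)) ∧
    (Group.IsSolvable (stabilizer N μ ⧸ N.subgroupOf (stabilizer N μ)) →
      (meromorphicOrderAt (A.L χ) s₀ < 0 →
        ∃ (X : Type) (_ : Group X) (F : Subgroup X) (D : ℕ), IsSection N μ X ∧ Frame X F D ∧
          (Nonempty (LTData A) → D ≠ 2) ∧
          (2 * (D : ℝ) ≤ B ∨ ((D : ℝ) ≤ B ∧ ∃ g : X, F ⊔ Subgroup.zpowers g = ⊤))) ∧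
      (Nonempty (LTData A) → B < 3 → 0 ≤ meromorphicOrderAt (A.L χ) s₀) ∧
      (Odd (N.relIndex (stabilizer N μ)) → B < 5 → 0 ≤ meromorphicOrderAt (A.L χ) s₀) ∧
      ((N.relIndex (stabilizer N μ)).Coprime 6 → B < 13 → 0 ≤ meromorphicOrderAt (A.L χ) s₀))

/-- `Z` is the continuation of the Hecke L-function of `ψ`. -/
def IsHecke {M : Type} [Field M] [NumberField M] (ψ : Ideal (𝓞 M) →*₀ ℂ) (Z : ℂ → ℂ) : Prop :=
  Differentiable ℂ Z ∧ ∀ s : ℂ, 1 < s.re →
    Z s = ∑' 𝔞 : Ideal (𝓞 M), ψ 𝔞 * ((Ideal.absNorm 𝔞 : ℕ) : ℂ) ^ (-s)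

/-- `Z` is the continuation of the Dedekind zeta function of `M` to all `s ≠ 1`. -/
def IsZeta (M : Type) [Field M] [NumberField M] (Z : ℂ → ℂ) : Prop :=
  (∀ s : ℂ, s ≠ 1 → DifferentiableAt ℂ Z s) ∧ ∀ s : ℂ, 1 < s.re → Z s = dedekindZeta M s

/-- `log |d_M|` -/
noncomputable def logDisc (M : Type) [Field M] [NumberField M] : ℝ :=
  Real.log (((discr M).natAbs : ℕ) : ℝ)

/-- `(log |d_M| + log R + [M : ℚ] log (1 + |t|)) / 2` -/
noncomputable def heckeLog (M : Type) [Field M] [NumberField M] (R t : ℝ) : ℝ :=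
  (logDisc M + Real.log R + Module.finrank ℚ M * Real.log (1 + |t|)) / 2

/-- `log |d_M| + [M : ℚ] log (1 + |t|) / 2 + 1 / (2 |t|)` -/
noncomputable def zetaLog (M : Type) [Field M] [NumberField M] (t : ℝ) : ℝ :=
  logDisc M + Module.finrank ℚ M / 2 * Real.log (1 + |t|) + 1 / (2 * |t|)

theorem conclusion_of {G : Type} [Group G] [Finite G] {s₀ : ℂ} (A : ArtinData G s₀) (N : Subgroup G)
    [N.Normal] (μ : N →* ℂˣ) {Z : ℂ → ℂ} (hZ : meromorphicOrderAt (A.Lin N μ) s₀ = meromorphicOrderAt Z s₀)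
    {B : ℝ} (hB : ∀ r : ℕ, meromorphicOrderAt Z s₀ = (r : WithTop ℤ) → (r : ℝ) ≤ B) : Conclusion A N μ B := by
  obtain ⟨r, hr⟩ := exists_order A N μ
  have hrB : (r : ℝ) ≤ B := hB r (by rw [← hZ, hr])
  intro χ hχ hχμ
  refine ⟨fun h2 => ?_, fun hsol => ?_⟩
  · have h3 : r ≤ 1 := by
      have h4 : (r : ℝ) < 2 := by linarith
      have h5 : r < 2 := by exact_mod_cast h4
      omega
    rcases art_one A N μ hr h3 hχ hχμ with h | ⟨-, h5, h6⟩
    · exact Or.inl h
    · exact Or.inr ⟨h5, h6⟩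
  · obtain ⟨h1, h2⟩ := art_solv A N μ hr hsol hχ hχμ
    refine ⟨fun hneg => ?_, fun hLT h3 => h2 ?_, fun hodd h5 => h2 ?_, fun h6 h13 => h2 ?_⟩
    · obtain ⟨X, hX, F, D, hS, hF, hD, h4⟩ := h1 hneg
      refine ⟨X, hX, F, D, hS, hF, hD, ?_⟩
      rcases h4 with h4 | ⟨h4, h5⟩
      · left
        have : (2 * (D : ℝ)) ≤ r := by exact_mod_cast h4
        linarith
      · right
        have : (D : ℝ) ≤ r := by exact_mod_cast h4
        exact ⟨by linarith, h5⟩
    · have h5 : r < 3 := by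
        have h4 : (r : ℝ) < 3 := by linarith
        exact_mod_cast h4
      exact Or.inr (Or.inr (Or.inr (Or.inr ⟨hLT, by omega, fun _ _ => by omega, fun _ _ => by omega,
        fun _ _ => by omega⟩)))
    · have h6 : r < 5 := by
        have h4 : (r : ℝ) < 5 := by linarith
        exact_mod_cast h4
      refine Or.inr (Or.inl ⟨3, le_rfl, by omega, fun q hq hqt => ?_⟩)
      have h7 := hq.two_le
      rcases Nat.lt_or_ge q 3 with h8 | h8
      · exfalso
        have h9 : q = 2 := by omega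
        rw [h9] at hqt
        exact (Nat.not_even_iff_odd.2 hodd) (even_iff_two_dvd.2 hqt)
      · exact h8
    · have h7 : r < 13 := by
        have h4 : (r : ℝ) < 13 := by linarith
        exact_mod_cast h4
      exact Or.inr (Or.inr (Or.inl ⟨by omega, h6⟩))

/-- **The theorem.** (1) Let `M = E^N`, let `ψ ≠ 1` be the primitive ray class character of `M` which
corresponds to the linear character `μ` of `N`, `R = |d_M| N𝔣 ≥ 2` its conductor, and `0 < Re s₀ ≤ 1`. Put
`B = (1 + √((1 - Re s₀) 𝓛))²`, `𝓛 = (log |d_M| + log R + [M : ℚ] log (1 + |Im s₀|)) / 2`. Then the order of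
`L(s, ψ)` at `s₀` is at most `B`. Hence for every irreducible character `χ` of `G` over `μ`: if `B < 2`, that is
`(1 - Re s₀) 𝓛 < (√2 - 1)²` (for instance `≤ 1/6`), then `L(s, χ)` has no pole at `s₀`, and no zero or a simple
zero with `χ(1) = [G : T]`; here there is no condition on the finite group `G`. If `T / N` is solvable, then
`L(s, χ)` has no pole at `s₀` if `B < 3` (Langlands and Tunnell; `(1 - Re s₀) 𝓛 ≤ 1/2` suffices), or if `B < 5` and
`|T / N|` is odd (`≤ 3/2` suffices), or if `B < 13` and `|T / N|` is prime to `6` (`≤ 13/2` suffices), and in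
general a pole forces a frame of degree `D` with `2 D ≤ B`, or with `D ≤ B` and `X / F` cyclic, in a section.

(2) The same for the Dedekind zeta function of `M = E^N`, `M ≠ ℚ`, at all points `s₀ ≠ 1` with
`0 < Re s₀ ≤ 1` and all characters `χ` which are trivial on `N`, where now: `B = (1 + √((1 - s₀) log |d_M| / 2))²`
if `s₀` is real; and if `s₀` is not real, then `B = (1 + √((1 - Re s₀) 𝓛'))²` with
`𝓛' = log |d_M| + [M : ℚ] log (1 + |Im s₀|) / 2 + 1 / (2 |Im s₀|)`, and also `B = 1 + |s₀ - 1| log |d_M| / 2`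
if `|s₀ - 1| ≤ 2`. (So for solvable `G`, `N = 1`, no `L(s, χ)` has a pole at a nonreal `s₀`, `0 < Re s₀ ≤ 1`,
with `|s₀ - 1| ≤ 2` and `|s₀ - 1| < 4 / log |d_E|`, by the theorem of Langlands and Tunnell.)

(3) Let `G` be solvable and let `s₀` be real, `0 < s₀ < 1`; then dual characters have L-functions of the same
order at `s₀`. Put `B = (1 + √((1 - s₀) log |d_E| / 2))²`. No `L(s, χ)` has a pole at `s₀` in each of the
following cases: `B < 4`, that is `(1 - s₀) log |d_E| < 2` (Langlands and Tunnell); `|G|` is odd and `B < 10`;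
`|G|` is prime to `6` and `B < 26`. -/
theorem result :
    (∀ (M : Type) [Field M] [NumberField M] (𝔣 : Ideal (𝓞 M)) (e : InfinitePlace M → ℕ)
      (ψ : Ideal (𝓞 M) →*₀ ℂ) (Z : ℂ → ℂ),
      IsRay 𝔣 e ψ → (∃ 𝔞 : Ideal (𝓞 M), 𝔞 ≠ ⊥ ∧ ψ 𝔞 ≠ 1) → 2 ≤ rayCond 𝔣 → IsHecke ψ Z →
      ∀ s₀ : ℂ, 0 < s₀.re → s₀.re ≤ 1 →
      ∀ B : ℝ, B = (1 + Real.sqrt ((1 - s₀.re) * heckeLog M (rayCond 𝔣) s₀.im)) ^ 2 →
      (∀ r : ℕ, meromorphicOrderAt Z s₀ = (r : WithTop ℤ) → (r : ℝ) ≤ B) ∧
      ∀ (G : Type) [Group G] [Finite G] (A : ArtinData G s₀) (N : Subgroup G) [N.Normal] (μ : N →* ℂˣ),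
        meromorphicOrderAt (A.Lin N μ) s₀ = meromorphicOrderAt Z s₀ → Conclusion A N μ B) ∧
    (∀ (M : Type) [Field M] [NumberField M] (Z : ℂ → ℂ), 1 < Module.finrank ℚ M → IsZeta M Z →
      ∀ s₀ : ℂ, s₀ ≠ 1 → 0 < s₀.re → s₀.re ≤ 1 →
      ∀ B : ℝ, ((s₀.im = 0 ∧ B = (1 + Real.sqrt ((1 - s₀.re) * (logDisc M / 2))) ^ 2) ∨
        (s₀.im ≠ 0 ∧ B = (1 + Real.sqrt ((1 - s₀.re) * zetaLog M s₀.im)) ^ 2) ∨
        (s₀.im ≠ 0 ∧ ‖s₀ - 1‖ ≤ 2 ∧ B = 1 + ‖s₀ - 1‖ * (logDisc M / 2))) →
      (∀ r : ℕ, meromorphicOrderAt Z s₀ = (r : WithTop ℤ) → (r : ℝ) ≤ B) ∧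
      ∀ (G : Type) [Group G] [Finite G] (A : ArtinData G s₀) (N : Subgroup G) [N.Normal],
        meromorphicOrderAt (A.Lin N 1) s₀ = meromorphicOrderAt Z s₀ → Conclusion A N 1 B) ∧
    (∀ (E : Type) [Field E] [NumberField E] (Z : ℂ → ℂ), 1 < Module.finrank ℚ E → IsZeta E Z →
      ∀ s₀ : ℂ, s₀.im = 0 → 0 < s₀.re → s₀.re < 1 →
      ∀ B : ℝ, B = (1 + Real.sqrt ((1 - s₀.re) * (logDisc E / 2))) ^ 2 →
      ∀ (G : Type) [Group G] [Finite G] [Group.IsSolvable G] (A : ArtinData G s₀),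
        meromorphicOrderAt (A.Lin ⊥ 1) s₀ = meromorphicOrderAt Z s₀ →
        (∀ χ ∈ Irr G, meromorphicOrderAt (A.L fun g => χ g⁻¹) s₀ = meromorphicOrderAt (A.L χ) s₀) →
        ((Nonempty (LTData A) ∧ B < 4) ∨ (Odd (Nat.card G) ∧ B < 10) ∨ ((Nat.card G).Coprime 6 ∧ B < 26)) →
        ∀ χ ∈ Irr G, 0 ≤ meromorphicOrderAt (A.L χ) s₀) := by
  refine ⟨?_, ?_, ?_⟩
  · intro M _ _ 𝔣 e ψ Z hray hne hR hZ s₀ h0 h1 B hB
    have key : ∀ r : ℕ, meromorphicOrderAt Z s₀ = (r : WithTop ℤ) → (r : ℝ) ≤ B := by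
      intro r hr
      rw [hB]
      exact hecke_order hray hne hR hZ h0 r hr h1
    exact ⟨key, fun G _ _ A N _ μ h => conclusion_of A N μ h key⟩
  · intro M _ _ Z hn hZ s₀ hs h0 h1 B hB
    have key : ∀ r : ℕ, meromorphicOrderAt Z s₀ = (r : WithTop ℤ) → (r : ℝ) ≤ B := by
      intro r hr
      obtain ⟨h2, h3⟩ := zeta_order hn hZ hs h0 h1 r hr
      rcases hB with ⟨him, hB⟩ | ⟨him, hB⟩ | ⟨him, h4, hB⟩
      · rw [hB]; exact h2 him
      · rw [hB]; exact (h3 him).1
      · rw [hB]; exact (h3 him).2 h4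
    exact ⟨key, fun G _ _ A N _ h => conclusion_of A N 1 h key⟩
  · intro E _ _ Z hn hZ s₀ him h0 h1 B hB G _ _ _ A hA hreal hcase
    obtain ⟨r, hr⟩ := exists_order A ⊥ 1
    have hs : s₀ ≠ 1 := by
      intro h
      rw [h, Complex.one_re] at h1
      exact lt_irrefl _ h1
    have hrB : (r : ℝ) ≤ B := by
      rw [hB]
      exact (zeta_order hn hZ hs h0 h1.le r (by rw [← hA, hr])).1 him
    refine real_small A hreal hr fun e he => ?_
    have heB : (e : ℝ) ≤ B := by
      have : (e : ℝ) ≤ r := by exact_mod_cast he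
      linarith
    rcases hcase with ⟨hLT, h4⟩ | ⟨hodd, h10⟩ | ⟨h6, h26⟩
    · have h5 : e < 4 := by
        have h6 : (e : ℝ) < 4 := by linarith
        exact_mod_cast h6
      exact Or.inr (Or.inr ⟨hLT, by omega, fun _ => by omega, fun _ => by omega⟩)
    · have h5 : e < 10 := by
        have h6 : (e : ℝ) < 10 := by linarith
        exact_mod_cast h6
      refine Or.inr (Or.inl ⟨hodd, Or.inr (Or.inl ⟨3, le_rfl, by omega, fun q hq hqt => ?_⟩)⟩)
      have h7 := hq.two_le
      rcases Nat.lt_or_ge q 3 with h8 | h8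
      · exfalso
        have h9 : q = 2 := by omega
        rw [h9] at hqt
        exact (Nat.not_even_iff_odd.2 hodd) (even_iff_two_dvd.2 hqt)
      · exact h8
    · have h5 : e < 26 := by
        have h7 : (e : ℝ) < 26 := by linarith
        exact_mod_cast h7
      have hodd : Odd (Nat.card G) := by
        have h7 : (Nat.card G).Coprime 2 := Nat.Coprime.coprime_dvd_right (by norm_num) h6
        exact Nat.coprime_two_right.1 h7
      exact Or.inr (Or.inl ⟨hodd, Or.inr (Or.inr (Or.inl ⟨by omega, h6⟩))⟩)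

end Pool.Agent.Results.MP_d2121a_nt.NearLine
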