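import Mathlib
import Pool.Agent.R362.NewZ2

/-!
# Artin's holomorphy conjecture at new zeros

`Pool.Agent.H541R3.ART.Irr G` is the set of irreducible complex characters of the finite group `G`.

`Pool.Agent.H541R3.ART.ArtinData G s₀` is a family of functions with the formal properties of the
Artin L-functions of a Galois extension `E/K` with group `G` near a point `s₀ ≠ 1`: functions
`L χ` for the irreducible characters `χ` of `G` and `Lin H ψ` for the linear characters `ψ` of the
subgroups `H`, such that `L χ` is meromorphic and not identically zero near `s₀` (Brauer), `Lin H ψ`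
has no pole at `s₀` (Artin reciprocity and Hecke), and `Lin H ψ` is the product of the
`L χ ^ ⟨χ|_H, ψ⟩` (induction). So `Lin H ψ` stands for the Hecke L-function of `ψ` over the fixed
field of `H`, and `Lin H 1` for the Dedekind zeta function of the fixed field of `H`.

`Pool.Agent.Y788.V.LTData A` are functions with the formal properties of the Artin L-functions of
the irreducible characters of degree two with solvable image of the subgroups of `G`; they have no
pole at `s₀` by the theorem of Langlands and Tunnell.

`Pool.Agent.W446.AS.Frame X F D`: the centre `Z` of `X` is cyclic and contains all abelian normal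
subgroups of `X`, and `F` is a normal subgroup of `X` containing `Z` such that `F / Z` is abelian of
order `D ^ 2 > 1` and the centraliser of `F` in `X` is `Z`.

For a homomorphism `f` of a subgroup `H` of `G` to `X` and a subgroup `B` of `X`,
`Pool.Agent.R362.pre H f B` is the preimage of `B` in `G`, and `Pool.Agent.R362.preHom H f B` is the
homomorphism from the preimage to `B`.
-/

set_option autoImplicit false

open Pool.Agent.H541R3.ART Pool.Agent.W446.AS Pool.Agent.Y788.V Pool.Agent.R362

/-- Let `G` be the Galois group of `E/K`, and suppose that `G` is solvable. In (2), (3) and (4) the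
theorem of Langlands and Tunnell is used.

(1) If some `L χ` has a pole at `s₀`, then there are a quotient `f : H → X` of a subgroup `H` of `G`,
a frame `F` of `X` of degree `D` and a faithful linear character `ω` of the centre `Z` of `X` with
the following properties, where `a` is the order at `s₀` of the Hecke L-function of `ω ∘ f`, a
character of the preimage of `Z`: `2 D ≤ a`, or `D ≤ a` and `X / F` is cyclic; and `a ≤ p z` for
every `x` in `F` outside `Z` with `x ^ p = 1`, `p` prime, where `z` is the order at `s₀` of the zeta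
function of the fixed field of the preimage of the group generated by `x`.

(2) Suppose that the zeta functions of all intermediate fields `M ≠ E` of `E/K` have order at most
`ρ` at `s₀` (there is no condition on the zeta function of `E`). If some `L χ` has a pole at `s₀`,
then some quotient `X` of a subgroup of `G` has a frame `F` of degree `D ≠ 2` such that for some
prime divisor `p` of `D`, `2 D ≤ p ρ`, or `D ≤ p ρ` and `X / F` is cyclic.

(3) If no zeta function of an intermediate field `M ≠ E` vanishes at `s₀`, then no `L χ` has a pole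
at `s₀`.

(4) If the zeta functions of all intermediate fields `M ≠ E` have order at most one at `s₀`, and if
there are no odd prime `p` and no `m` dividing `p ^ 2 - 1` but not `p - 1` such that `p ^ 3 m` divides
`|G|`, then no `L χ` has a pole at `s₀`. -/
theorem Pool.Agent.Results.MP_d2121a_nt.NewZeros.result
    (G : Type) [Group G] [Finite G] [Group.IsSolvable G] (s₀ : ℂ) (A : ArtinData G s₀) :
    ((∃ χ ∈ Irr G, meromorphicOrderAt (A.L χ) s₀ < 0) →
      ∃ (H : Subgroup G) (X : Type) (_ : Group X) (f : H →* X) (F : Subgroup X) (D : ℕ)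
        (ω : Subgroup.center X →* ℂˣ) (a : ℕ),
        Function.Surjective f ∧ Frame X F D ∧ (Nonempty (LTData A) → D ≠ 2) ∧
        Function.Injective ω ∧
        meromorphicOrderAt (A.Lin (pre H f (Subgroup.center X))
          (ω.comp (preHom H f (Subgroup.center X)))) s₀ = (a : WithTop ℤ) ∧
        (2 * D ≤ a ∨ (D ≤ a ∧ ∃ g : X, F ⊔ Subgroup.zpowers g = ⊤)) ∧
        ∀ x ∈ F, x ∉ Subgroup.center X → ∀ p z : ℕ, p.Prime → x ^ p = 1 →
          meromorphicOrderAt (A.Lin (pre H f (Subgroup.zpowers x)) 1) s₀ = (z : WithTop ℤ) →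
          a ≤ p * z) ∧
    (Nonempty (LTData A) → ∀ ρ : ℕ,
      (∀ H : Subgroup G, H ≠ ⊥ → ∀ z : ℕ,
        meromorphicOrderAt (A.Lin H 1) s₀ = (z : WithTop ℤ) → z ≤ ρ) →
      (∃ χ ∈ Irr G, meromorphicOrderAt (A.L χ) s₀ < 0) →
      ∃ (H : Subgroup G) (X : Type) (_ : Group X) (f : H →* X) (F : Subgroup X) (D p : ℕ),
        Function.Surjective f ∧ Frame X F D ∧ D ≠ 2 ∧ p.Prime ∧ p ∣ D ∧
        (2 * D ≤ p * ρ ∨ (D ≤ p * ρ ∧ ∃ g : X, F ⊔ Subgroup.zpowers g = ⊤))) ∧
    (Nonempty (LTData A) →
      (∀ H : Subgroup G, H ≠ ⊥ → meromorphicOrderAt (A.Lin H 1) s₀ = 0) →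
      ∀ χ ∈ Irr G, 0 ≤ meromorphicOrderAt (A.L χ) s₀) ∧
    (Nonempty (LTData A) →
      (∀ H : Subgroup G, H ≠ ⊥ → meromorphicOrderAt (A.Lin H 1) s₀ = 0 ∨
        meromorphicOrderAt (A.Lin H 1) s₀ = 1) →
      (∀ p m : ℕ, p.Prime → p ≠ 2 → m ∣ p ^ 2 - 1 → ¬ m ∣ p - 1 →
        ¬ p ^ 3 * m ∣ Nat.card G) →
      ∀ χ ∈ Irr G, 0 ≤ meromorphicOrderAt (A.L χ) s₀) := by
  refine ⟨?_, ?_, ?_, ?_⟩
  · rintro ⟨χ, hχ, hneg⟩
    exact art_master A hχ hneg
  · rintro ⟨B⟩ ρ hρ ⟨χ, hχ, hneg⟩
    exact art_sub A B hρ hχ hneg
  · rintro ⟨B⟩ hρ χ hχ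
    exact art_new A B hρ hχ
  · rintro ⟨B⟩ hρ hG χ hχ
    exact art_simple A B hρ hG hχ
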