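import Mathlib
import Pool.Agent.R362.RealArt

/-!
# Artin's holomorphy conjecture at real points for solvable groups

`Pool.Agent.H541R3.ART.Irr G` is the set of irreducible complex characters of the finite group `G`.

`Pool.Agent.H541R3.ART.ArtinData G s₀` is a family of functions with the formal properties of the
Artin L-functions of a Galois extension `E/K` with group `G` near a point `s₀ ≠ 1`: functions
`L χ` for the irreducible characters `χ` of `G` and `Lin H ψ` for the linear characters `ψ` of the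
subgroups `H`, such that `L χ` is meromorphic and not identically zero near `s₀` (Brauer), `Lin H ψ`
has no pole at `s₀` (Artin reciprocity and Hecke), and `Lin H ψ` is the product of the
`L χ ^ ⟨χ|_H, ψ⟩` (induction). In particular `Lin ⊥ 1` and `Lin ⊤ 1` stand for the Dedekind zeta
functions of `E` and `K`.

The hypothesis `hreal` says that the L-functions of the dual characters `χ` and `g ↦ χ (g⁻¹)` have
the same order at `s₀`. It holds at all real points `s₀`, since the L-function of the dual
character, the complex conjugate of `χ`, is `s ↦ conj (L χ (conj s))`.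

`Pool.Agent.Y788.V.LTData A` are functions with the formal properties of the Artin L-functions of
the irreducible characters of degree two with solvable image of the subgroups of `G`; they have no
pole at `s₀` by the theorem of Langlands and Tunnell.

`Pool.Agent.W446.AS.Frame X F D`: the centre `Z` of `X` is cyclic and contains all abelian normal
subgroups of `X`, and `F` is a normal subgroup of `X` containing `Z` such that `F / Z` is abelian of
order `D ^ 2 > 1` and the centraliser of `F` in `X` is `Z`.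
-/

set_option autoImplicit false

open Pool.Agent.H541R3.ART Pool.Agent.W446.AS Pool.Agent.Y788.V Pool.Agent.R362

/-- Let `G` be the Galois group of `E/K`. Suppose that `G` is solvable and that `s₀` is real. Let
`e` be the order of `ζ_E / ζ_K` at `s₀`.

(1) If some `L χ` has a pole at `s₀`, then some quotient `X` of a subgroup of `G` has a frame `F` of
degree `D` (with `D ≠ 2` by the theorem of Langlands and Tunnell) such that `4 D ≤ e`, or `2 D ≤ e`
and `X / F` is cyclic, or the centre of `X` has order two and `2 D ≤ e`, or the centre of `X` has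
order two, `D ≤ e` and `X / F` is cyclic.

(2) Using the theorem of Langlands and Tunnell, no `L χ` has a pole at `s₀` if `e ≤ 3`, or if
`e ≤ 5` and `160` does not divide `|G|`, or if `e ≤ 7` and neither `108` nor `160` divides `|G|`.

(3) If `|G|` is odd, no `L χ` has a pole at `s₀` in each of the following cases: `e ≤ 4 P - 3` and all
prime divisors of `|G|` are at least `P ≥ 3`; `e ≤ 25` and `3` does not divide `|G|`; `e ≤ 21` and
neither `375` nor `1215` divides `|G|`. -/
theorem Pool.Agent.Results.MP_d2121a_nt.RealPoint.result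
    (G : Type) [Group G] [Finite G] [Group.IsSolvable G] (s₀ : ℂ) (A : ArtinData G s₀)
    (hreal : ∀ χ ∈ Irr G, meromorphicOrderAt (A.L fun g => χ g⁻¹) s₀
      = meromorphicOrderAt (A.L χ) s₀)
    (z e : ℕ) (hz : meromorphicOrderAt (A.Lin ⊤ 1) s₀ = (z : WithTop ℤ))
    (he : meromorphicOrderAt (A.Lin ⊥ 1) s₀ = ((z + e : ℕ) : WithTop ℤ)) :
    ((∃ χ ∈ Irr G, meromorphicOrderAt (A.L χ) s₀ < 0) →
      ∃ (H : Subgroup G) (X : Type) (_ : Group X) (f : H →* X) (F : Subgroup X) (D : ℕ),
        Function.Surjective f ∧ Frame X F D ∧ (Nonempty (LTData A) → D ≠ 2) ∧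
        ((4 * D ≤ e ∨ (2 * D ≤ e ∧ ∃ g : X, F ⊔ Subgroup.zpowers g = ⊤)) ∨
          (Nat.card (Subgroup.center X) = 2 ∧
            (2 * D ≤ e ∨ (D ≤ e ∧ ∃ g : X, F ⊔ Subgroup.zpowers g = ⊤))))) ∧
    (Nonempty (LTData A) → e ≤ 7 → (108 ∣ Nat.card G → e ≤ 5) → (160 ∣ Nat.card G → e ≤ 3) →
      ∀ χ ∈ Irr G, 0 ≤ meromorphicOrderAt (A.L χ) s₀) ∧
    (Odd (Nat.card G) →
      ((∃ P : ℕ, 3 ≤ P ∧ e ≤ 4 * P - 3 ∧ ∀ q : ℕ, q.Prime → q ∣ Nat.card G → P ≤ q) ∨
        (e ≤ 25 ∧ ¬ 3 ∣ Nat.card G) ∨
        (e ≤ 21 ∧ ¬ 375 ∣ Nat.card G ∧ ¬ 1215 ∣ Nat.card G)) →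
      ∀ χ ∈ Irr G, 0 ≤ meromorphicOrderAt (A.L χ) s₀) := by
  have hcard : ∀ (H : Subgroup G) (X : Type) [Group X] (f : H →* X), Function.Surjective f →
      Nat.card X ∣ Nat.card G := fun H X _ f hf =>
    (Subgroup.card_dvd_of_surjective f hf).trans (Subgroup.card_subgroup_dvd_card H)
  have key : RSmall (Nonempty (LTData A)) e (Nat.card G) →
      ∀ χ ∈ Irr G, 0 ≤ meromorphicOrderAt (A.L χ) s₀ := by
    intro h χ hχ
    refine art_real A hreal hz he hχ ?_
    intro H X _ f hf
    have : Finite X := Finite.of_surjective f hf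
    exact h.obs (hcard H X f hf)
  refine ⟨?_, ?_, ?_⟩
  · rintro ⟨χ, hχ, hneg⟩
    by_contra hcon
    refine (not_lt.mpr (art_real A hreal hz he hχ ?_)) hneg
    rintro H X _ f hf ⟨F, D, hF, hD, h⟩
    exact hcon ⟨H, X, _, f, F, D, hf, hF, hD, h⟩
  · intro hT h7 h108 h160
    exact key (Or.inr (Or.inr ⟨hT, h7, h108, h160⟩))
  · intro hodd h
    refine key (Or.inr (Or.inl ⟨hodd, ?_⟩))
    rcases h with ⟨P, hP, heP, hq⟩ | ⟨h25, h3⟩ | ⟨h21, h375, h1215⟩
    · exact Or.inr (Or.inl ⟨P, hP, by omega, hq⟩)
    · refine Or.inr (Or.inr (Or.inl ⟨by omega, ?_⟩))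
      have h2 : Nat.Coprime (Nat.card G) 2 := (Nat.coprime_two_right).mpr hodd
      have h4 : Nat.Coprime (Nat.card G) 3 :=
        ((Nat.Prime.coprime_iff_not_dvd Nat.prime_three).mpr h3).symm
      exact Nat.Coprime.mul_right h2 h4
    · exact Or.inr (Or.inr (Or.inr (Or.inl ⟨by omega, hodd, fun h => h375 h.2,
        fun h => h1215 h.2⟩)))
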